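import Pool.Agent.Q47.FL.Main

/-!
# Abundance for pairs on flag bundles over quotients of complex tori

Let `X = V / Γ` be the quotient of a complex torus of any dimension by any finite group (with or
without fixed points and reflections), and let `Y → X` be the bundle of the partial flags of any
given type in a direct sum of arbitrary line bundles `c_i` on `X` (for example a Grassmannian bundle
or the bundle of full flags). Let `Δ` be any effective `ℚ`-divisor on `Y` such that the pair
`(Y_v, Δ_v)` is log canonical for one fibre `Y_v` of `Y → X` (the divisor `Δ` may have arbitrary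
coefficients and singularities over a proper closed subset of `X`, and need not be invariant under
any group action).

(1) If `K_Y + Δ` is nef, then it is semiample.

(2) If `Γ` contains no reflections (for example if `X` is a complex torus or a quotient with trivial
canonical bundle), then it suffices that `K_Y + Δ` is nef on the fibres of `Y → X`.

`IsSection`, `IsLogPluricanonical`, `IsLogCanonical`, `IsFibreNef`, `IsNef` and `anti` are defined in
`Pool.Agent.Q47.FL.Defs` (the flag bundle `Y` is the quotient of `V × GL_q` by `Γ` and by a parabolic
subgroup), `IsTorusQuotient` and `LineBundle` (given by a factor of automorphy `L.e`) in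
`Pool.Agent.W594.SYZ.Defs2`, `IsChernForm` and `IsNefForm` in `Pool.Agent.W594.SYZ.TQDefs`,
`OnMirror` and `IsRamification` in `Pool.Agent.TH735.AQ.MirDefs`.

The proof. Let `F = ∑ f_α(v) g ^ α` define `m Δ`, where `g` is the matrix and `α` has the row degrees
`χ(α)`. Let `a ∈ ℤ^q` define a one-parameter group of diagonal matrices, and let `w` be a permutation
which sorts `a`. At the corresponding fixed point of the flag variety all tangent weights are
positive, and the monomial valuation with these weights satisfies the inequality for log canonical
pairs. This says `min_α ⟨a, χ(α)⟩ ≤ ⟨a, w λ⟩`, where `λ` is the dominant weight of `m (K_Y + Δ)` on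
the fibre. By the rearrangement inequality all the extremal weights `w λ` are in the convex hull of
the `χ(α)`. Hence for each `w` a product of powers of the coefficients `f_α` defines an effective
boundary `B_w` on `X` such that `L ⊗ ∏ c_{w j} ^ (- λ_j)` is a log pluricanonical bundle of
`(X, B_w)`, and abundance for torus quotients with arbitrary effective boundary applies. Each
invertible matrix has, after some permutation of the rows, nonzero leading minors, and the products
of powers of these nested minors with sections on `X` generate a multiple of `K_Y + Δ`.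
-/

set_option autoImplicit false

universe u

namespace Pool.Agent.Results.MP_e23cd6_ag.FlagBundles

open Pool.Agent.W594.SYZ2 Pool.Agent.TH735.AQ Q47.FL MvPolynomial

variable {V : Type u} [NormedAddCommGroup V] [NormedSpace ℂ V]

/-- Let `X = V / Γ` be a torus quotient, let `ρ` define the ramification divisor of `V → X`, let
`Y → X` be the bundle of flags of the type given by the weakly increasing function `b` in the direct
sum of the line bundles `c i` on `X` with Chern forms `Hc i`, let `F` define the effective divisor
`m Δ` on `Y`, and let `O_Y(m (K_Y + Δ))` be the line bundle on `Y` given by the weight `d - m anti`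
and by `L`. Assume that the fibre `(Y_v, Δ_v)` is log canonical for some `v = v₀`.

(1) If `K_Y + Δ` is nef, then there is `N ≥ 1` such that for each point `(v, g)` of `Y` there is a
section of `O_Y(N m (K_Y + Δ))` which does not vanish at this point.

(2) If `Γ` contains no reflections, the same holds if `K_Y + Δ` is nef on the fibres. -/
theorem result [FiniteDimensional ℂ V] (Γ : Subgroup (V ≃ᵃ[ℂ] V)) (hΓ : IsTorusQuotient Γ)
    (ρ : V → ℂ) (hρ : IsRamification Γ ρ)
    (q : ℕ) (b : Fin q → ℕ) (hb : Monotone b)
    (c : Fin q → LineBundle Γ) (Hc : Fin q → V → V → ℂ) (hc : ∀ i, IsChernForm (c i) (Hc i))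
    (m : ℕ) (hm : 1 ≤ m) (d : ℕ → ℕ) (F : V → MvPolynomial (Fin q × Fin q) ℂ)
    (L : LineBundle Γ) (H : V → V → ℂ) (hL : IsChernForm L H)
    (hF : Q47.FL.IsLogPluricanonical b c m ρ d F L)
    (v₀ : V) (hlc : IsLogCanonical b m (F v₀)) :
    (IsNef b Hc (fun j => d (b j) - m * anti b j) H →
      ∃ N : ℕ, 1 ≤ N ∧ ∃ d' : ℕ → ℕ, (∀ j, (d' (b j) : ℤ) = N * (d (b j) - m * anti b j)) ∧
        ∀ (v : V) (g : Matrix (Fin q) (Fin q) ℂ), g.det ≠ 0 →
          ∃ G, IsSection b c d' (fun γ v => L.e γ v ^ N) G ∧ ev g (G v) ≠ 0) ∧
    ((∀ v, ¬ OnMirror Γ v) → IsFibreNef b (fun j => d (b j) - m * anti b j) →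
      ∃ N : ℕ, 1 ≤ N ∧ ∃ d' : ℕ → ℕ, (∀ j, (d' (b j) : ℤ) = N * (d (b j) - m * anti b j)) ∧
        ∀ (v : V) (g : Matrix (Fin q) (Fin q) ℂ), g.det ≠ 0 →
          ∃ G, IsSection b c d' (fun γ v => L.e γ v ^ N) G ∧ ev g (G v) ≠ 0) :=
  ⟨fun hn => abundance hΓ hρ hb hc hm hL hF hlc hn,
    fun hmir hn => abundance_no_mirror hΓ hρ hmir hb hc hm hL hF hlc hn⟩

end Pool.Agent.Results.MP_e23cd6_ag.FlagBundles
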