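import Pool.Agent.Q36.GV.Pb

/-!
# Abundance for pairs dominated by products

Let `Y` be a projective manifold of dimension `d` whose canonical map has an image of dimension
`a ≥ 0` (for instance an abelian variety or a variety with trivial canonical bundle, `a = 0`, or a
variety of general type with generically finite canonical map, `a = d`), `C 1, ..., C n` irrational
curves, `Z` a variety with a generically finite rational map to `Y × C 1 × ... × C n`, and `Z ⇢ X` any
dominant rational map of finite degree to a projective manifold `X`. The map need not be a quotient by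
a group. Let `Δ` be an effective `ℝ`-divisor on `X`, with arbitrary real coefficients; it is given by
its multiplicities `δ v` along all divisors `v` of all models of `X`. The pull back of `Δ` to `Z` has
the multiplicity `e * δ v` along a divisor `w` over `v` with ramification index `e`.

For a general point `x` of `X` let `r_i` be the number of different `i`-th coordinates of the points
of `Z` over `x` (`i = 0` is the coordinate in `Y`), and for a set `Q` of indices let `r(Q)` be the
number of the points over `x` which have the same `j`-th coordinates as a given one of them for all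
`j` outside `Q`. Let `c i + 2` be at most the gonality of `C i` for `i ≥ 1`, and `c 0 = 0`, or more
generally let the canonical forms of `Y` separate `c 0 + 1` points and tangent vectors in an open
set. Assume that

* `2 r_i ≤ c i + 1` for all `i` in some set `B` (which may be empty), and
* for all `Q` disjoint from `B` the points over `x` are determined by their coordinates outside `Q`
  (`r(Q) = 1`), or `2 r(Q) - 1 ≤ ∑ j ∈ Q, c j`.

Let `h` be the number of the curves `C i` which are not elliptic, or such that the pull back of `Δ`
to `Z` contains a positive multiple of a fibre of `Z ⇢ C i`. The theorem: `κ(K_X + Δ) ≥ a + h`, and if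
`Z` is the product, `ν(Y) ≤ a` and the pull back of `Δ` is at most a multiple of a sum of fibres of
the projections to the curves counted in `h`, then `ν(K_X + Δ) ≤ a + h`. So
`κ(K_X + Δ) = ν(K_X + Δ) = a + h`; by a theorem of Kawamata `K_X + Δ` is then semiample if it is nef
and `(X, Δ)` is klt. The coefficients of `Δ` may be irrational and arbitrarily small.

Proof. Lower bound: the traces of exterior products of canonical forms of `Y` and regular
differentials of the curves are canonical forms on `X`; for a curve with a fibre in the pull back of
`Δ` there is moreover a nonconstant function `u` on the curve with a single pole, at the point of the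
fibre, and the traces of its powers have poles in the support of `Δ` only. If a vector field of `X`
kills the quotients of the traces of the forms and the traces of the powers of these functions, then
it kills the quotients of the canonical forms of the factors (Hall's theorem on the marriage problem
and the separation properties of the canonical forms are used to isolate one point of the fibre and
one factor), and the functions `u`. So there are `a + h` algebraically independent ones among these
functions of `X`. Upper bound: the product of a section of a multiple of `K_X + Δ`, pulled back to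
`Z`, and a power of an exterior product of canonical forms, which vanishes on the vector fields with
logarithmic zeros along the fibres, is a section of a multiple of `K_Z + D`, `D` a reduced sum of
fibres; such sections are expanded along the curves.
-/

set_option autoImplicit false
set_option linter.overlappingInstances false

open FF IntermediateField Pool.Agent.W619.PQ Pool.Agent.W619.TW

namespace Pool.Agent.Results.MP_e23cd6_ag.PairsDominatedByProducts

/-- Every nonconstant function on the curve with function field `F` has degree at least `γ`. -/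
def GonalityGe (F : Type) [Field F] [Algebra ℂ F] (γ : ℕ) : Prop :=
  ∀ b : F, Transcendental ℂ b → γ ≤ Module.finrank ℂ⟮b⟯ F

/-- The image of the map given by the sections of `m K_X` has dimension at least `h`: there are
`h + 1` sections of `m K_X` whose ratios to the first one are algebraically independent. -/
def ImageGe (K : Type) [Field K] [Algebra ℂ K] (n m h : ℕ) : Prop :=
  ∃ ω : Fin (h + 1) → (Fin n → Derivation ℂ K K) → K,
    (∀ l, IsSec ℂ K n (fun _ => False) {1} m 0 (ω l)) ∧
    ∃ D, (∀ l, ω l D ≠ 0) ∧ AlgebraicIndependent ℂ (fun l : Fin h => ω l.succ D / ω 0 D)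

/-- The coefficients of the canonical forms of the projective manifold of dimension `d` with function
field `K`, with respect to the rational vector fields `E`. -/
def canonicalForms {K : Type} [Field K] [Algebra ℂ K] (d : ℕ) (E : Fin d → Derivation ℂ K K) :
    Set K :=
  {f | ∃ η : (Fin d → Derivation ℂ K K) → K, IsPluriForm ℂ K d 1 η ∧
    (∀ u : Place ℂ K, IsDivisorial u d → RegularAt u d η) ∧ η E = f}

/-- The canonical forms of the manifold with function field `K` separate `m` points and tangent
vectors in an open set: let `φ i` be different generic points, with coordinates in a field `Ω`, with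
multiplicities `1` or `2` of sum at most `m`, and `θ i` tangent vectors at the points of multiplicity
`2`; then the values at the `φ i` are linearly independent of each other and of the derivatives in
the directions `θ i ≠ 0`. (For the coefficients with respect to a frame `E`; this does not depend on
the choice of the frame.) -/
def Separates (K : Type) [Field K] [Algebra ℂ K] (d m : ℕ) : Prop :=
  ∀ (y : Fin d → K) (E : Fin d → Derivation ℂ K K), IsTranscendenceBasis ℂ y →
    (∀ i j, E i (y j) = if i = j then 1 else 0) →
    ∀ (Ω : Type) [Field Ω] [Algebra ℂ Ω] (ι : Type) [Fintype ι] (φ : ι → (K →ₐ[ℂ] Ω)) (μ : ι → ℕ)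
      (c : ι → Ω) (θ : ι → (K →ₗ[ℂ] Ω)), Function.Injective φ → (∀ i, μ i = 1 ∨ μ i = 2) →
      ∑ i, μ i ≤ m → (∀ i, ∀ a b, θ i (a * b) = φ i a * θ i b + φ i b * θ i a) →
      (∀ i, μ i = 1 → θ i = 0) →
      (∀ f ∈ canonicalForms d E, ∑ i, (c i * φ i f + θ i f) = 0) → ∀ i, c i = 0 ∧ θ i = 0

section

variable (L : Type) {M : Type} [Field L] [Field M] [Algebra ℂ L] [Algebra ℂ M] [Algebra L M]

/-- The number of different coordinates in the factor with function field `F` on a general fibre of
`Z ⇢ X`: the degree over `X` of the image of `Z` in the product of `X` and the factor. -/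
noncomputable def coordinates (F : IntermediateField ℂ M) : ℕ :=
  Module.finrank L (IntermediateField.adjoin L (F : Set M))

/-- The number of the points of a general fibre of `Z ⇢ X` with the same coordinates outside `Q` as a
given one: the degree of `Z` over its image in the product of `X` and the factors `j ∉ Q`. -/
noncomputable def agreeing {n : ℕ} (F : Fin n → IntermediateField ℂ M) (Q : Finset (Fin n)) : ℕ :=
  Module.finrank (IntermediateField.adjoin L {z : M | ∃ j, j ∉ Q ∧ z ∈ F j}) M

end

/-- `ω` is a section of `m (K_X + Δ) + j A`, where the effective `ℝ`-divisor `Δ` is given by its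
multiplicities `δ v` along all divisors `v`, and `A` is the divisor generated by `S`. -/
def PairSection (K : Type) [Field K] [Algebra ℂ K] (n : ℕ) (δ : Place ℂ K → ℝ) (S : Finset K)
    (m j : ℕ) (ω : (Fin n → Derivation ℂ K K) → K) : Prop :=
  IsPluriForm ℂ K n m ω ∧ ∀ v : Place ℂ K, IsDivisorial v n → ∀ D : Fin n → Derivation ℂ K K,
    (∀ l, ∀ f, v.Reg f → v.Reg (D l f)) →
    ω D = 0 ∨ ∃ s ∈ S, s ≠ 0 ∧ (j : ℝ) * v.ord s - m * δ v ≤ v.ord (ω D)

/-- `κ(K_X + Δ) ≥ h`: for some `m ≥ 1` and all `j ≥ 1` there are `j ^ h` linearly independent
sections of `j m (K_X + Δ)`. -/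
def PairKodairaGe (K : Type) [Field K] [Algebra ℂ K] (n : ℕ) (δ : Place ℂ K → ℝ) (h : ℕ) : Prop :=
  ∃ m : ℕ, 1 ≤ m ∧ ∀ j : ℕ, 1 ≤ j →
    ∃ ω : Fin (j ^ h) → (Fin n → Derivation ℂ K K) → K, LinearIndependent ℂ ω ∧
      ∀ l, PairSection K n δ {1} (j * m) 0 (ω l)

/-- `ν(K_X + Δ) ≤ h`: for all `A` there is a `C` such that there are at most `C m ^ h` linearly
independent sections of `m (K_X + Δ) + A`, for all `m ≥ 1`. -/
def PairNumericalLe (K : Type) [Field K] [Algebra ℂ K] (n : ℕ) (δ : Place ℂ K → ℝ) (h : ℕ) :
    Prop :=
  ∀ S : Finset K, ∃ C : ℕ, ∀ m N : ℕ, 1 ≤ m →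
    (∃ ω : Fin N → (Fin n → Derivation ℂ K K) → K, LinearIndependent ℂ ω ∧
      ∀ l, PairSection K n δ S m 1 (ω l)) → N ≤ C * m ^ h

open scoped Classical in
/-- The multiplicity along the divisor `w` of `Z` of the fibre over the point `p` of a curve: the
ramification index of `w` over `p`, and `0` if `w` does not lie over `p`. -/
noncomputable def fibre {M : Type} [Field M] [Algebra ℂ M] (w : Place ℂ M)
    {C : IntermediateField ℂ M} (p : Place ℂ C) : ℕ :=
  if h : ∃ e, Over w p e then h.choose else 0

/-- The pull back of `Δ` to `Z`, which has the multiplicity `e * δ v` along a divisor `w` of `Z` over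
the divisor `v` of `X` with ramification index `e`, contains a positive multiple of the fibre over a
point `p` of the curve with function field `C`. -/
def ContainsFibre {L M : Type} [Field L] [Field M] [Algebra ℂ L] [Algebra ℂ M] [Algebra L M]
    (N : ℕ) (δ : Place ℂ L → ℝ) (C : IntermediateField ℂ M) : Prop :=
  ∃ p : Place ℂ C, ∃ ε : ℝ, 0 < ε ∧ ∀ (w : Place ℂ M) (v : Place ℂ L) (e : ℕ),
    IsDivisorial w N → Over w v e → ε * fibre w p ≤ e * δ v

/-- **Abundance for pairs dominated by products.** Let `F 0` be the function field of a projective
manifold `Y` of dimension `d` whose canonical map has an image of dimension at least `a`, and `F i`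
(`0 < i ≤ n`) the function fields of curves of gonality at least `c i + 2`; let `c 0 = 0` or let the
canonical forms of `Y` separate `c 0 + 1` points and tangent vectors. Let `M` be the function field of
a variety `Z` of dimension `d + n` with a generically finite rational map to the product of `Y` and
the curves, and `Z ⇢ X` a dominant rational map of finite degree to a projective manifold with
function field `L`. Let `B` be a set of indices such that twice the number of the `i`-th coordinates
on a general fibre is at most `c i + 1` for `i ∈ B`. Assume that for every set `Q` of indices disjoint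
from `B` the number `r(Q)` of the points of a general fibre with the same coordinates outside `Q` as a
given one satisfies `r(Q) = 1` or `2 r(Q) - 1 ≤ ∑ j ∈ Q, c j`. Let `Δ` be an effective `ℝ`-divisor on
`X` with the multiplicities `δ v`, and `h` the number of the curves which are not elliptic, or such
that the pull back of `Δ` to `Z` contains a positive multiple of a fibre over the curve. Then
`κ(K_X + Δ) ≥ a + h`. If moreover `Z` is the product, `ν(Y) ≤ a`, and the pull back of `Δ` is at most
a multiple of the sum of the fibres over the points in finite subsets `S i` of the curves, `S i` empty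
for the curves not counted in `h`, then `ν(K_X + Δ) ≤ a + h`. -/
theorem result {L M : Type} [Field L] [Field M] [Algebra ℂ L] [Algebra ℂ M] [Algebra L M]
    [IsScalarTower ℂ L M] [FiniteDimensional L M] [Algebra.EssFiniteType ℂ L] (d n : ℕ)
    (hM : Algebra.trdeg ℂ M = (d + n : ℕ)) (F : Fin (n + 1) → IntermediateField ℂ M)
    (hess : Algebra.EssFiniteType ℂ (F 0)) (hY : Algebra.trdeg ℂ (F 0) = d)
    (hF : ∀ i : Fin n, IsFF ℂ (F i.succ)) (halg : Algebra.IsAlgebraic ↥(⨆ i, F i) M)
    (a : ℕ) (ha : ImageGe (F 0) d 1 a) (c : Fin (n + 1) → ℕ)
    (hc : c 0 = 0 ∨ Separates (F 0) d (c 0 + 1))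
    (hγ : ∀ i : Fin n, GonalityGe (F i.succ) (c i.succ + 2))
    (B : Finset (Fin (n + 1))) (hB : ∀ i ∈ B, 2 * coordinates L (F i) ≤ c i + 1)
    (hQ : ∀ Q : Finset (Fin (n + 1)), Disjoint Q B →
      agreeing L F Q = 1 ∨ 2 * agreeing L F Q ≤ 1 + ∑ j ∈ Q, c j)
    (δ : Place ℂ L → ℝ) (hδ : ∀ v, 0 ≤ δ v) :
    PairKodairaGe L (d + n) δ
      (a + {i : Fin n | ¬ IsElliptic (F i.succ) ∨ ContainsFibre (d + n) δ (F i.succ)}.ncard) ∧
    (⨆ i, F i = ⊤ → NumLe ℂ (F 0) d (fun _ => False) a →
      ∀ (S : ∀ i : Fin n, Finset (Place ℂ (F i.succ))) (A : ℕ),
        (∀ i, (S i).Nonempty → ¬ IsElliptic (F i.succ) ∨ ContainsFibre (d + n) δ (F i.succ)) →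
        (∀ (w : Place ℂ M) (v : Place ℂ L) (e : ℕ), IsDivisorial w (d + n) → Over w v e →
          (e : ℝ) * δ v ≤ A * (∑ i, ∑ p ∈ S i, fibre w p : ℕ)) →
        PairNumericalLe L (d + n) δ (a +
          {i : Fin n | ¬ IsElliptic (F i.succ) ∨ ContainsFibre (d + n) δ (F i.succ)}.ncard)) := by
  have hirr : ∀ i : Fin n, ¬ ∃ t : F i.succ, ℂ⟮t⟯ = ⊤ := fun i =>
    Q36.HB.irr_of_gon fun b hb => le_trans (by omega) (hγ i b hb)
  have hpos : Q36.PT.PlurigenusPos ℂ (F 0) d 1 := by
    obtain ⟨ω, h1, D, h2, -⟩ := ha
    exact ⟨ω 0, (Q36.GV.reg_of_sec (h1 0)).1, (Q36.GV.reg_of_sec (h1 0)).2, D, h2 0⟩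
  refine ⟨Q36.GV.pkodYC F hY hM halg hc ha hγ B hB hQ δ hδ, fun hsup hnum S A hS hA => ?_⟩
  have h1 := Q36.GV.pnumYC F hY hM hsup hpos hirr hnum S δ A hA
  have h2 : {i : Fin n | ¬ IsElliptic (F i.succ) ∨ (S i).Nonempty}.ncard ≤
      {i : Fin n | ¬ IsElliptic (F i.succ) ∨ ContainsFibre (d + n) δ (F i.succ)}.ncard :=
    Set.ncard_le_ncard fun i hi => by
      rcases hi with hi | hi
      · exact Or.inl hi
      · exact hS i hi
  intro T
  obtain ⟨C, hC⟩ := h1 T
  refine ⟨C, fun m N hm hN => (hC m N hm hN).trans ?_⟩
  exact Nat.mul_le_mul_left _ (Nat.pow_le_pow_right hm (Nat.add_le_add_left h2 a))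

end Pool.Agent.Results.MP_e23cd6_ag.PairsDominatedByProducts
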