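import Pool.Agent.Q47.TB.Main

/-!
# Abundance for pairs on toric bundles over quotients of complex tori

Let `X = V / Γ` be the quotient of a complex torus of any dimension by any finite group (with or
without fixed points and reflections), and let `Y → X` be a toric bundle: a locally trivial bundle
whose fibre is a smooth complete toric variety, twisted by arbitrary line bundles `c_i` on `X` (for
example the projective bundle of a direct sum of line bundles, or a fibre product of such bundles).
Let `Δ` be any effective `ℚ`-divisor on `Y` such that the pair `(Y_v, Δ_v)` is log canonical for one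
fibre `Y_v` of `Y → X` (the divisor `Δ` may have arbitrary coefficients and singularities over a
proper closed subset of `X`, and need not be invariant under the torus action).

(1) If `K_Y + Δ` is nef, then it is semiample.

(2) If `Γ` contains no reflections (for example if `X` is a complex torus or a quotient with trivial
canonical bundle), then it suffices that `K_Y + Δ` is nef on the fibres of `Y → X`.

The toric bundle `Y` is described by Cox coordinates; `IsSmoothFan`, `LinEquiv`, `IsSection`,
`IsLogPluricanonical`, `IsLogCanonical`, `IsFibreNef` and `IsNef` are defined in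
`Pool.Agent.Q47.TB.Defs`, `IsTorusQuotient` and `LineBundle` (given by a factor of automorphy `L.e`)
in `Pool.Agent.W594.SYZ.Defs2`, `IsChernForm` and `IsNefForm` in `Pool.Agent.W594.SYZ.TQDefs`,
`OnMirror` and `IsRamification` in `Pool.Agent.TH735.AQ.MirDefs`.

The proof. Let `F = ∑ f_α(v) x ^ α` define `m Δ`. If an effective divisor `∑ β_i D_i` of the class of
`m (K_Y + Δ)` on the fibre were such that `m (1, ..., 1) + β` is not in the Newton polytope of `F`,
then a separating functional, written in the rays of a cone of the fan, would be a monomial valuation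
with log discrepancy smaller than the multiplicity of `Δ`, against the local integrability of
`|F_v| ^ (-2 c / m)`. Hence a product of powers of the coefficients `f_α` defines an effective
boundary `B_β` on `X` such that `L ⊗ ∏ c_i ^ (- β_i)` is a log pluricanonical bundle of `(X, B_β)`,
and abundance for torus quotients with arbitrary effective boundary applies.
-/

set_option autoImplicit false

universe u w

namespace Pool.Agent.Results.MP_e23cd6_ag.ToricBundles

open Pool.Agent.W594.SYZ2 Pool.Agent.TH735.AQ Q47.TB MvPolynomial

variable {V : Type u} [NormedAddCommGroup V] [NormedSpace ℂ V] {ι : Type w} [Fintype ι]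

/-- Let `X = V / Γ` be a torus quotient, let `ρ` define the ramification divisor of `V → X`, let
`Y → X` be the toric bundle given by a smooth complete fan with the rays `r i` and by line bundles
`c i` on `X` with Chern forms `Hc i`, let `F` define the effective divisor `m Δ` on `Y`, and let
`O_Y(m (K_Y + Δ))` be the line bundle on `Y` given by the class of `∑ (d_i - m) D_i` and by `L`.
Assume that the fibre `(Y_v, Δ_v)` is log canonical for some `v = v₀`.

(1) If `K_Y + Δ` is nef, then there is `N ≥ 1` such that for each point `(v, x)` of `Y` there is a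
section of `O_Y(N m (K_Y + Δ))` which does not vanish at this point.

(2) If `Γ` contains no reflections, the same holds if `K_Y + Δ` is nef on the fibres. -/
theorem result [FiniteDimensional ℂ V] (Γ : Subgroup (V ≃ᵃ[ℂ] V)) (hΓ : IsTorusQuotient Γ)
    (ρ : V → ℂ) (hρ : IsRamification Γ ρ)
    (n : ℕ) (r : ι → Fin n → ℤ) (S : Set (Set ι)) (hS : IsSmoothFan r S)
    (c : ι → LineBundle Γ) (Hc : ι → V → V → ℂ) (hc : ∀ i, IsChernForm (c i) (Hc i))
    (m : ℕ) (hm : 1 ≤ m) (d : ι → ℤ) (F : V → MvPolynomial ι ℂ)
    (L : LineBundle Γ) (H : V → V → ℂ) (hL : IsChernForm L H)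
    (hF : Q47.TB.IsLogPluricanonical r c m ρ d F L)
    (v₀ : V) (hlc : IsLogCanonical S m (F v₀)) :
    (IsNef r S Hc (fun i => d i - m) H →
      ∃ N : ℕ, 1 ≤ N ∧ ∀ (v : V) (x : ι → ℂ), {i | x i = 0} ∈ S →
        ∃ G, IsSection r c (fun i => (N : ℤ) * (d i - m)) (fun γ v => L.e γ v ^ N) G ∧
          eval x (G v) ≠ 0) ∧
    ((∀ v, ¬ OnMirror Γ v) → IsFibreNef r S (fun i => d i - m) →
      ∃ N : ℕ, 1 ≤ N ∧ ∀ (v : V) (x : ι → ℂ), {i | x i = 0} ∈ S →
        ∃ G, IsSection r c (fun i => (N : ℤ) * (d i - m)) (fun γ v => L.e γ v ^ N) G ∧
          eval x (G v) ≠ 0) :=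
  ⟨fun hn => abundance hΓ hρ hS hc hm hL hF hlc hn,
    fun hmir hn => abundance_no_mirror hΓ hρ hmir hS hc hL hF (F v₀).support
      (fun _ hα => ⟨v₀, mem_support_iff.1 hα⟩) (weights_of_lc hm hlc) hn⟩

end Pool.Agent.Results.MP_e23cd6_ag.ToricBundles
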