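import Pool.Agent.Q57.UG.Top

/-!
# Uniform abundance for toroidal pairs on arbitrary covers of products of subcanonical varieties

Let `V i`, `i = 1, ..., r`, be a projective variety of dimension `n i ≥ 1` in the projective
`M i`-space, and let `F (i, k)`, `k = 0, ..., n i`, be forms of degrees `d (i, k)` which have no common
zero on `V i`. Let `K` be any finite extension of the function field of the product
`V = V 1 × ... × V r`, of any degree and with any Galois group. The homogeneous coordinates of the
generic point of `V i` are `x i j`, `j = 0, ..., M i`.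

Suppose that the canonical divisor of `V i` is the multiple `κ i` of the hyperplane section (the
`V i` are subcanonical, for example complete intersections). This is expressed by a rational
differential form `Ω` of the maximal degree of `K`: the forms `Ω * ∏ i, (x i j) ^ (κ i)`, where
`x i j` is a coordinate which is not zero at a given point, are local generators of the canonical
bundle of `V`. So `logDiscrepancy F d κ x Ω P` is the log discrepancy of the pair
`(V, ∑ (i, k), (F (i, k) = 0))` along the prime divisor `P` over `V` (a divisorial place of `K`; for a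
divisor over a cover the log discrepancy is multiplied by the ramification index). In the theorem `Ω`
may be any nonzero rational form and `κ i` any integers.

**The pairs.** A prime divisor `P` has the vector `multiplicities F d x P` of the multiplicities
`v (i, k)` of the hypersurface sections `F (i, k) = 0` along `P`. It is a vector of a face: for every
`i` some `v (i, k)` is zero. The divisors `K + Δ 1, ..., K + Δ p` are given by functions `ψ i` on
these vectors: the log discrepancy of `(X, Δ i)` along any prime divisor `P` over `X` is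
`ψ i v + logDiscrepancy F d κ x Ω P`, `v` the vector of `P`, so that the `coefficient` of `P` in the
pullback of `K + Δ i` is `δ i P = 1 - ψ i v - logDiscrepancy F d κ x Ω P`. The functions `ψ i` are
homogeneous and, for example, linear on the cones of a subdivision of the fan of the faces
(`AreLogDiscrepancies`). For example, let the zero sets of the forms have normal crossings on smooth
`V i`, let `Y` be the normal cover of `V` with the function field `K`, unramified outside the zero
sets of the forms, let `X` be a toroidal modification of `Y`, given by a subdivision of the fan, and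
let `Δ i` be a divisor with arbitrary rational coefficients which is supported over these zero sets,
such that `K + Δ i` is `ℚ`-Cartier. Then `ψ i` is the function which is linear on the cones of the fan
of `X`, with the value `1 - a` at the vector of a component with the coefficient `a` in `Δ i` (if
there are several components over the same ray, the number `(1 - a) / e` has to be the same for all
of them, `e` the ramification index; this holds if `Y` is a Galois cover and `Δ i` is invariant). The
pair is log canonical if the coefficients are at most one (`ψ i ≥ 0`); there is no condition on them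
here. The `K + Δ i` are `ℚ`-linearly equivalent to pullbacks of toric divisors under a finite map to
a product of weighted projective spaces.

**The theorem.** There are integral vectors `g b ∈ ℕ ^ p`, finitely many, and an integer `T ≥ 1`,
which depend only on the dimensions `n i`, the degrees `d (i, k)`, the integers `κ i` and the
functions `ψ i`, with the following properties, for all `V i`, `F`, all fields `K` and forms `Ω`.
There are nonzero sections `ω b` of the divisors `∑ i, g b i (K + Δ i)` such that

* (orders) every section `η` of `∑ i, μ i (K + Δ i) + j A`, for any `μ ∈ ℕ ^ p`, `j` and any divisor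
  `A`, has at every prime divisor `P` the order at least that of a monomial in the sections `ω b`
  whose degree is `μ`, up to an error `C (j + 1)`, where `C` depends only on `P` and `A`;
* (the pseudo-effective cone) for real numbers `lam i ≥ 0` the divisor `∑ i, lam i (K + Δ i)` is
  pseudo-effective if and only if `lam` is a nonnegative combination of the degrees `g b`; so the
  cone of these divisors is rational polyhedral and it depends only on the numerical data;
* (nef divisors are semiample) for real numbers `lam i ≥ 0` the divisor `∑ i, lam i (K + Δ i)` is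
  nef if and only if for every prime divisor `P` over `V` there are real `t b ≥ 0` with
  `∑ b, t b * g b = lam`, such that all `ω b` with `t b ≠ 0` do not vanish at `P`;
* (effective base point freeness) if `μ ∈ ℕ ^ p` and `∑ i, μ i (K + Δ i)` is nef, then its multiple
  by `T` is base point free: for every prime divisor `P` over `V` it has a section which does not
  vanish at `P`.

In particular abundance holds for the pairs `(X, Δ)` with `Δ` in the polytope of the `Δ i`: if
`q (K + Δ)` is an integral combination of the `K + Δ i` and `K + Δ` is nef, then `T q (K + Δ)` is base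
point free, with an integer `T` which does not depend on `Δ` and on the variety `X`, which can be a
cover of any degree. The results `MP_e23cd6_ag.HypersurfaceQuotientAbundance` and
`MP_c2a5fc_ag.NefRealCombinations` concern abelian covers of products of projective spaces, branched
along one hypersurface of each factor; here the varieties `V i` and the covers are arbitrary, there are
`n i + 1` hypersurface sections of the `i`-th factor, and the constants are uniform.
-/

set_option autoImplicit false

open FF MvPolynomial Pool.Agent.W602.GT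

namespace Pool.Agent.Results.MP_e23cd6_ag.UniformAbundanceOfCovers

/-- The index `(i, k)` of the `n i + 1` hypersurface sections of the variety `V i`. -/
abbrev Hypersurface {r : ℕ} (n : Fin r → ℕ) := (i : Fin r) × Fin (n i + 1)

section places

variable {r N p : ℕ} {n M : Fin r → ℕ} {K : Type} [Field K] [Algebra ℂ K]

/-- The ratios of the forms `F (i, k + 1)` and `F (i, 0)`, raised to powers of the same degree. -/
noncomputable def ratio (F : ∀ b : Hypersurface n, MvPolynomial (Fin (M b.1 + 1)) ℂ)
    (d : Hypersurface n → ℕ) (x : ∀ i, Fin (M i + 1) → K) (b : (i : Fin r) × Fin (n i)) : K :=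
  aeval (x b.1) (F ⟨b.1, b.2.succ⟩) ^ d ⟨b.1, 0⟩ /
    aeval (x b.1) (F ⟨b.1, 0⟩) ^ d ⟨b.1, b.2.succ⟩

/-- The forms `F (i, k)` have no common zero on `V i`, the variety of the points at which all forms
vanish which vanish at the generic point `x i`. -/
def NoCommonZeros (F : ∀ b : Hypersurface n, MvPolynomial (Fin (M b.1 + 1)) ℂ)
    (x : ∀ i, Fin (M i + 1) → K) : Prop :=
  ∀ i, ∀ y : Fin (M i + 1) → ℂ, y ≠ 0 →
    (∀ (G : MvPolynomial (Fin (M i + 1)) ℂ) (m : ℕ), G.IsHomogeneous m → aeval (x i) G = 0 →
      eval y G = 0) → ∃ k, eval y (F ⟨i, k⟩) ≠ 0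

/-- The minimal order at `P` of the homogeneous coordinates `y` of one factor. -/
noncomputable def minimalOrder {k : ℕ} (y : Fin (k + 1) → K) (P : Place ℂ K) : ℤ :=
  Finset.univ.inf' Finset.univ_nonempty fun j => P.ord (y j)

/-- The multiplicities of the hypersurface sections `F (i, k) = 0` along the prime divisor `P`; the
`x i j` are the homogeneous coordinates of the `i`-th factor, which are divided by one of minimal
order at `P`. -/
noncomputable def multiplicities (F : ∀ b : Hypersurface n, MvPolynomial (Fin (M b.1 + 1)) ℂ)
    (d : Hypersurface n → ℕ) (x : ∀ i, Fin (M i + 1) → K) (P : Place ℂ K) (b : Hypersurface n) :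
    ℕ :=
  (P.ord (aeval (x b.1) (F b)) - d b * minimalOrder (x b.1) P).toNat

/-- The order of the form `Ω` along `P`: the minimal order of its values at vector fields which are
regular at `P`. -/
noncomputable def formOrder (Ω : (Fin N → Derivation ℂ K K) → K) (P : Place ℂ K) : ℤ :=
  sInf {k : ℤ | ∃ D : Fin N → Derivation ℂ K K, (∀ c, DerReg P (D c)) ∧ Ω D ≠ 0 ∧
    P.ord (Ω D) = k}

/-- The log discrepancy along `P` of the product of the `V i`, with the boundary
`∑ (i, k), (F (i, k) = 0)`, if the forms `Ω * ∏ i, (x i j) ^ (κ i)` are local generators of the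
canonical bundle, `x i j` a coordinate of minimal order at `P`. -/
noncomputable def logDiscrepancy (F : ∀ b : Hypersurface n, MvPolynomial (Fin (M b.1 + 1)) ℂ)
    (d : Hypersurface n → ℕ) (κ : Fin r → ℤ) (x : ∀ i, Fin (M i + 1) → K)
    (Ω : (Fin N → Derivation ℂ K K) → K) (P : Place ℂ K) : ℤ :=
  formOrder Ω P + 1 - ∑ b, (multiplicities F d x P b : ℤ) + ∑ i, κ i * minimalOrder (x i) P

/-- The coefficient of `P` in the pullback of `K + Δ`, for the divisor with the function `ψ`: the log
discrepancy along `P` is `ψ v + logDiscrepancy F d κ x Ω P`, `v` the vector of the multiplicities. -/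
noncomputable def coefficient (F : ∀ b : Hypersurface n, MvPolynomial (Fin (M b.1 + 1)) ℂ)
    (d : Hypersurface n → ℕ) (κ : Fin r → ℤ) (x : ∀ i, Fin (M i + 1) → K)
    (Ω : (Fin N → Derivation ℂ K K) → K) (ψ : (Hypersurface n → ℕ) → ℚ) (P : Place ℂ K) : ℚ :=
  1 - ψ (multiplicities F d x P) - logDiscrepancy F d κ x Ω P

/-- The vectors of the faces: for every `i` one of the entries is zero. -/
def IsFaceVector (v : Hypersurface n → ℕ) : Prop := ∀ i, ∃ k, v ⟨i, k⟩ = 0

/-- The functions `ψ i` on the vectors of the faces are homogeneous, and for a finite set `T` of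
nonzero vectors of the faces every vector `v` of a face is a nonnegative combination of the vectors
in `T`, such that all `ψ i v` are at most the combinations of the values at the vectors in `T` (for
functions which are linear on the cones of a fan let `T` be the generators of the rays). -/
structure AreLogDiscrepancies (ψ : Fin p → (Hypersurface n → ℕ) → ℚ) : Prop where
  homogeneous : ∀ i v (k : ℕ), 1 ≤ k → IsFaceVector v → ψ i (k • v) = k * ψ i v
  finite : ∃ T : Finset (Hypersurface n → ℕ), (∀ s ∈ T, IsFaceVector s ∧ s ≠ 0) ∧
    ∀ v, IsFaceVector v → ∃ w : (Hypersurface n → ℕ) → ℚ, (∀ s, 0 ≤ w s) ∧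
      (∀ b, (v b : ℚ) = ∑ s ∈ T, w s * s b) ∧ ∀ i, ψ i v ≤ ∑ s ∈ T, w s * ψ i s

end places

section sections

variable {K : Type} [Field K] [Algebra ℂ K] {p : ℕ} (N : ℕ) (δ : Fin p → Place ℂ K → ℚ)

/-- `ω` is a section of `∑ i, μ i (K + Δ i) + j A`: a rational section of the power of the canonical
bundle with the exponent `∑ i, μ i` (`IsPluri`: a function of `N` rational vector fields which is
multiplied by the power of `det B` under a linear substitution `B`) whose order on the vector fields
which are regular at `P` is at least `j` times the order of one of the functions in `S`, minus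
`∑ i, μ i * δ i P`, where `δ i P` is the coefficient of `P` in the pullback of `K + Δ i`, for all
prime divisors `P` (all divisorial places `P` of `K`). Here `A` is the divisor which is generated by
the finite set `S` of functions; `A = 0` if `S = {1}`. -/
def IsSection (S : Finset K) (μ : Fin p →₀ ℕ) (j : ℕ) (ω : (Fin N → Derivation ℂ K K) → K) :
    Prop :=
  IsPluri (∑ i, μ i) ω ∧ ∀ P : Place ℂ K, Divisorial N P → ∀ D : Fin N → Derivation ℂ K K,
    (∀ c, DerReg P (D c)) → ω D = 0 ∨ ∃ s ∈ S, s ≠ 0 ∧
      (j : ℚ) * P.ord s - ∑ i, (μ i : ℚ) * δ i P ≤ P.ord (ω D)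

/-- The real combination `∑ i, lam i (K + Δ i)` is pseudo-effective: there is a divisor `A` such that
for all `M` a positive multiple `j (M ∑ i, lam i (K + Δ i) + A)` has a nonzero section, after a
change of the coefficients `j M lam i` by at most `j`. -/
def Pseudoeffective (lam : Fin p → ℝ) : Prop :=
  ∃ S : Finset K, ∀ M : ℕ, ∃ j : ℕ, 1 ≤ j ∧ ∃ μ : Fin p →₀ ℕ,
    (∀ i, |(μ i : ℝ) - j * M * lam i| ≤ j) ∧ ∃ η, η ≠ 0 ∧ IsSection N δ S μ j η

/-- The sections `ω b` of `∑ i, g b i (K + Δ i)` compute all asymptotic orders: for every prime
divisor `P`, divisor `A` and vector fields `D` there is a constant `C` such that for every section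
`η` of `∑ i, μ i (K + Δ i) + j A`, `μ ≠ 0`, with `η D ≠ 0` there is a monomial in the `ω b`, with
exponents `e b`, whose degree differs from `μ` by at most `C (j + 1)`, and whose order at `P` (the
order of the value at `D`) is at most that of `η`, plus `C (j + 1)`. -/
def ComputeOrders {r : ℕ} (g : Fin r → Fin p →₀ ℕ)
    (ω : Fin r → (Fin N → Derivation ℂ K K) → K) : Prop :=
  ∀ (P : Place ℂ K) (S : Finset K) (D : Fin N → Derivation ℂ K K), ∃ C : ℕ,
    ∀ (μ : Fin p →₀ ℕ) (j : ℕ) (η : (Fin N → Derivation ℂ K K) → K), μ ≠ 0 →
      IsSection N δ S μ j η → η D = 0 ∨ ((∀ b, ω b D ≠ 0) ∧ ∃ e : Fin r → ℕ,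
        (∀ i, |∑ b, (e b : ℤ) * g b i - μ i| ≤ C * (j + 1)) ∧
        ∑ b, (e b : ℤ) * P.ord (ω b D) ≤ P.ord (η D) + C * (j + 1))

/-- The real combination `∑ i, lam i (K + Δ i)` is nef: there is a divisor `A` such that for all
`M ≥ 1` a positive multiple `j (M ∑ i, lam i (K + Δ i) + A)` has no base points: for every prime
divisor `P` there is, after a change of the coefficients `j M lam i` by at most `j`, a section which
does not vanish at `P`. -/
def Nef (lam : Fin p → ℝ) : Prop :=
  ∃ S : Finset K, (∃ s ∈ S, s ≠ 0) ∧ ∀ M : ℕ, 1 ≤ M → ∃ j : ℕ, 1 ≤ j ∧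
    ∀ P : Place ℂ K, Divisorial N P → ∃ μ : Fin p →₀ ℕ, (∀ i, |(μ i : ℝ) - j * M * lam i| ≤ j) ∧
      ∃ η, IsSection N δ S μ j η ∧ ∃ D, (∀ c, DerReg P (D c)) ∧ η D ≠ 0 ∧ ∀ s ∈ S, s ≠ 0 →
        (P.ord (η D) : ℚ) ≤ j * P.ord s - ∑ i, (μ i : ℚ) * δ i P

/-- The section `ω` of `∑ i, g i (K + Δ i)` does not vanish at `P`. -/
def DoesNotVanish (g : Fin p →₀ ℕ) (ω : (Fin N → Derivation ℂ K K) → K) (P : Place ℂ K) : Prop :=
  ∃ D, (∀ c, DerReg P (D c)) ∧ ω D ≠ 0 ∧ (P.ord (ω D) : ℚ) ≤ - ∑ i, (g i : ℚ) * δ i P

end sections

/-- **Uniform abundance.** For given dimensions `n i`, degrees `d (i, k)`, integers `κ i` and functions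
`ψ i` there are an integer `T ≥ 1` and finitely many vectors `g b` such that the following holds for
all projective varieties `V i` of dimension `n i` with `n i + 1` forms `F (i, k)` of the degrees
`d (i, k)` without common zeros, all finite extensions `K` of the function field of the product and
all forms `Ω`: there are nonzero sections `ω b` of the `∑ i, g b i (K + Δ i)` which compute the
asymptotic orders of all combinations of the `K + Δ i` at all prime divisors, the cone of the
pseudo-effective real combinations is generated by the `g b`, the nef real combinations are the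
semiample ones, and the multiples by `T` of the nef integral combinations are base point free. -/
theorem result (r N p : ℕ) (n : Fin r → ℕ) (hn : ∀ i, 1 ≤ n i) (hN1 : 1 ≤ N)
    (hN : N = ∑ i, n i) (d : Hypersurface n → ℕ) (hd : ∀ b, 1 ≤ d b) (κ : Fin r → ℤ)
    (ψ : Fin p → (Hypersurface n → ℕ) → ℚ) (hψ : AreLogDiscrepancies ψ) :
    ∃ (T s : ℕ) (g : Fin s → Fin p →₀ ℕ), 1 ≤ T ∧ (∀ b, g b ≠ 0) ∧
      ∀ (K : Type) [Field K] [Algebra ℂ K] [Algebra.EssFiniteType ℂ K] (M : Fin r → ℕ)
        (F : ∀ b : Hypersurface n, MvPolynomial (Fin (M b.1 + 1)) ℂ)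
        (x : ∀ i, Fin (M i + 1) → K) (Ω : (Fin N → Derivation ℂ K K) → K)
        (δ : Fin p → Place ℂ K → ℚ),
        (∀ b, (F b).IsHomogeneous (d b)) → (∀ i j, x i j ≠ 0) → NoCommonZeros F x →
        IsTranscendenceBasis ℂ (ratio F d x) → IsPluri 1 Ω → Ω ≠ 0 →
        (∀ i, δ i = coefficient F d κ x Ω (ψ i)) →
        ∃ ω : Fin s → (Fin N → Derivation ℂ K K) → K,
          (∀ b, ω b ≠ 0 ∧ IsSection N δ {1} (g b) 0 (ω b)) ∧
          ComputeOrders N δ g ω ∧
          (∀ lam : Fin p → ℝ, (∀ i, 0 ≤ lam i) →
            (Pseudoeffective N δ lam ↔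
              ∃ t : Fin s → ℝ, (∀ b, 0 ≤ t b) ∧ ∀ i, lam i = ∑ b, t b * g b i)) ∧
          (∀ lam : Fin p → ℝ, (∀ i, 0 ≤ lam i) →
            (Nef N δ lam ↔ ∀ P : Place ℂ K, Divisorial N P →
              ∃ t : Fin s → ℝ, (∀ b, 0 ≤ t b) ∧ (∀ i, lam i = ∑ b, t b * g b i) ∧
                ∀ b, t b ≠ 0 → DoesNotVanish N δ (g b) (ω b) P)) ∧
          ∀ μ : Fin p →₀ ℕ, Nef N δ (fun i => (μ i : ℝ)) → ∀ P : Place ℂ K, Divisorial N P →
            ∃ η, IsSection N δ {1} (T • μ) 0 η ∧ DoesNotVanish N δ (T • μ) η P := by
  obtain ⟨T0, hT0, hT1⟩ := hψ.finite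
  obtain ⟨s, g, _, _, T, hg, hT, H⟩ := Pool.Agent.Q57.UG.top_u hn hN1 hN hd κ (p := p) (ψ := ψ)
    ⟨T0, hψ.homogeneous, hT0, hT1⟩
  refine ⟨T, s, g, hT, hg, ?_⟩
  intro K _ _ _ M F x Ω δ hF hx hno hbas hΩ hΩ0 hδ
  obtain ⟨⟨ω, h1, h2, h3, h4⟩, -, h5, -⟩ := H K M F x Ω δ hF hx hno hbas hΩ hΩ0
    fun i P => congrFun (hδ i) P
  refine ⟨ω, fun b => ⟨(h1 b).1, Pool.Agent.Q57.GG.msec_asec (h1 b).2⟩, h2, h3, h4,
    fun μ hμ P hP => ?_⟩
  obtain ⟨η, h6, h7⟩ := h5 μ hμ P hP
  exact ⟨η, Pool.Agent.Q57.GG.msec_asec h6, h7⟩

end Pool.Agent.Results.MP_e23cd6_ag.UniformAbundanceOfCovers
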